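import Pool.Agent.Y851.DK.Stm

/-!
# Project DK (MP_51e72e_nt): integers with a large sum of `1 / p` are rare
-/

set_option autoImplicit false

namespace Pool.Agent.Y195.DK

open Finset Pool.Agent.Y851.DK

lemma sg_nonneg (m : ℕ) : 0 ≤ sg m := by
  unfold sg
  exact Finset.sum_nonneg fun p _ => by positivity

lemma sg_prime {p : ℕ} (hp : p.Prime) : sg p ≤ 1 / 2 := by
  unfold sg
  rw [hp.primeFactors, Finset.sum_singleton]
  apply one_div_le_one_div_of_le (by norm_num)
  exact_mod_cast hp.two_le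

lemma sum_sg (N : ℕ) : ∑ a ∈ Ioc 0 N, sg a ≤ N := by
  rcases Nat.eq_zero_or_pos N with h | hN
  · subst h
    simp
  · have h1 : ∀ a ∈ Ioc 0 N, sg a ≤ ∑ p ∈ Ioc 1 N, (if p ∣ a then (1 : ℝ) / p else 0) := by
      intro a ha
      rw [Finset.mem_Ioc] at ha
      unfold sg
      rw [← Finset.sum_filter]
      apply Finset.sum_le_sum_of_subset_of_nonneg
      · intro p hp
        have hpp := Nat.prime_of_mem_primeFactors hp
        have hpa := Nat.dvd_of_mem_primeFactors hp
        rw [Finset.mem_filter, Finset.mem_Ioc]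
        exact ⟨⟨hpp.one_lt, (Nat.le_of_dvd ha.1 hpa).trans ha.2⟩, hpa⟩
      · intro p _ _
        positivity
    calc ∑ a ∈ Ioc 0 N, sg a ≤ ∑ a ∈ Ioc 0 N, ∑ p ∈ Ioc 1 N, (if p ∣ a then (1 : ℝ) / p else 0) :=
          Finset.sum_le_sum h1
      _ = ∑ p ∈ Ioc 1 N, ∑ a ∈ Ioc 0 N, (if p ∣ a then (1 : ℝ) / p else 0) := Finset.sum_comm
      _ ≤ ∑ p ∈ Ioc 1 N, (N : ℝ) * ((p : ℝ) ^ 2)⁻¹ := by
          apply Finset.sum_le_sum
          intro p hp
          rw [Finset.mem_Ioc] at hp
          rw [← Finset.sum_filter, Finset.sum_const, Nat.Ioc_filter_dvd_card_eq_div, nsmul_eq_mul]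
          have hp0 : (0 : ℝ) < p := by
            have : 0 < p := by omega
            exact_mod_cast this
          have h2 : ((N / p : ℕ) : ℝ) ≤ (N : ℝ) / p := Nat.cast_div_le
          calc ((N / p : ℕ) : ℝ) * (1 / p) ≤ (N : ℝ) / p * (1 / p) :=
                mul_le_mul_of_nonneg_right h2 (by positivity)
            _ = (N : ℝ) * ((p : ℝ) ^ 2)⁻¹ := by
                field_simp
      _ = (N : ℝ) * ∑ p ∈ Ioc 1 N, ((p : ℝ) ^ 2)⁻¹ := by rw [Finset.mul_sum]
      _ ≤ (N : ℝ) * 1 := by
          apply mul_le_mul_of_nonneg_left _ (Nat.cast_nonneg N)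
          have h3 := sum_Ioc_inv_sq_le_sub (α := ℝ) (k := 1) (n := N) one_ne_zero hN
          have h4 : (0 : ℝ) ≤ (N : ℝ)⁻¹ := by positivity
          have h5 : (((1 : ℕ) : ℝ))⁻¹ = 1 := by norm_num
          linarith
      _ = N := mul_one _

theorem t_SGA : P_SGA := by
  intro f δ hf hδ
  refine ⟨max 1 (1 / (f * δ)), le_max_left _ _, ?_⟩
  intro Q A hA hcase
  set T := max 1 (1 / (f * δ)) with hT
  have hT1 : 1 ≤ T := le_max_left _ _
  have hT2 : 1 ≤ f * δ * T := by
    have h1 : 1 / (f * δ) ≤ T := le_max_right _ _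
    have h2 : 0 < f * δ := mul_pos hf hδ
    rw [div_le_iff₀ h2] at h1
    linarith
  rcases hcase with h | h
  · set B := A.filter (fun a => T < sg a) with hB
    by_cases hBe : B = ∅
    · rw [hBe]
      simp only [Finset.card_empty, Nat.cast_zero]
      positivity
    · obtain ⟨a₀, ha₀⟩ := Finset.nonempty_iff_ne_empty.mpr hBe
      have ha₀A : a₀ ∈ A := (Finset.mem_filter.mp ha₀).1
      have hQ : 0 ≤ Q := by
        have h1 := hA a₀ ha₀A
        have h2 : (0 : ℝ) ≤ a₀ := Nat.cast_nonneg _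
        linarith [h1.2]
      have h1 : T * B.card ≤ ∑ a ∈ B, sg a := by
        rw [mul_comm, ← nsmul_eq_mul]
        apply Finset.card_nsmul_le_sum
        intro a ha
        exact (Finset.mem_filter.mp ha).2.le
      have h2 : ∑ a ∈ B, sg a ≤ ∑ a ∈ Ioc 0 ⌊Q⌋₊, sg a := by
        apply Finset.sum_le_sum_of_subset_of_nonneg
        · intro a ha
          have h3 := hA a (Finset.mem_filter.mp ha).1
          rw [Finset.mem_Ioc]
          exact ⟨by omega, Nat.le_floor h3.2⟩
        · intro a _ _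
          exact sg_nonneg a
      have h3 := sum_sg ⌊Q⌋₊
      have h4 := Nat.floor_le hQ
      have h5 : T * B.card ≤ Q := by linarith
      have h6 : (0 : ℝ) ≤ B.card := Nat.cast_nonneg _
      calc (B.card : ℝ) = 1 * B.card := (one_mul _).symm
        _ ≤ (f * δ * T) * B.card := mul_le_mul_of_nonneg_right hT2 h6
        _ = f * (δ * (T * B.card)) := by ring
        _ ≤ f * (δ * Q) := by
            apply mul_le_mul_of_nonneg_left _ hf.le
            exact mul_le_mul_of_nonneg_left h5 hδ.le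
        _ ≤ f * A.card := mul_le_mul_of_nonneg_left h hf.le
  · have hB : A.filter (fun a => T < sg a) = ∅ := by
      rw [Finset.filter_eq_empty_iff]
      intro a ha h1
      have h2 := sg_prime (h a ha)
      linarith
    rw [hB]
    simp only [Finset.card_empty, Nat.cast_zero]
    positivity

end Pool.Agent.Y195.DK
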